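import Pool.Agent.helper811_gap.Main

/-!
# A uniform gap for the norms of projections

There is a fixed `ε > 0` such that for every `n` some `n`-dimensional real normed space has all its
projections of rank at least two and positive corank of norm at least `1 + ε`. In the notation of
the problem, the sequence `c 1 = 1`, `c k = 1 + ε` for `k ≥ 2` is admissible (the rank one subspaces
are the only ones not covered, and there the norm one projections of Hahn and Banach exist).

The spaces are small perturbations of the Euclidean norm by a random form of degree eight.
-/

set_option autoImplicit false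

namespace Pool.Agent.Results.MP_eff485_an.UniformGap

/-- There is `ε > 0` such that for every `n` there is an `n`-dimensional real normed space `F` in
which every projection onto a subspace of dimension at least two and codimension at least one has
norm at least `1 + ε`. -/
theorem result :
    ∃ ε : ℝ, 0 < ε ∧ ∀ n : ℕ, ∃ (F : Type) (_ : NormedAddCommGroup F) (_ : NormedSpace ℝ F)
      (_ : FiniteDimensional ℝ F),
      Module.finrank ℝ F = n ∧
      ∀ E : Submodule ℝ F, 2 ≤ Module.finrank ℝ E → 1 ≤ Module.finrank ℝ (F ⧸ E) →
        ∀ P : F →L[ℝ] F, (∀ x, P x ∈ E) → (∀ x ∈ E, P x = x) → 1 + ε ≤ ‖P‖ :=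
  ⟨H811.ep, H811.ep_pos, H811.gap⟩

end Pool.Agent.Results.MP_eff485_an.UniformGap
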